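import Pool.Agent.Run7.h48.RG.Main

/-!
# Finite commutative local rings need Weisfeiler-Leman dimension of order `log n`
-/

set_option autoImplicit false

namespace Pool.Agent.Results.MP_f1a348_lc.CommutativeRings

open Run7.h48.RG Pool.Agent.W185.SRG Pool.Agent.TH658.Sos

/-- Two finite commutative rings are isomorphic if and only if their structure graphs are, and for
every prime `p`, all `k ≥ 1` and all `r ≥ 1735 * k` there are two non-isomorphic commutative local
rings with `p ^ r` elements (of characteristic `p`, with a residue field of order `p` and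
`m ^ 3 = 0`) whose structure graphs are not distinguished by the `k`-dimensional
Weisfeiler-Leman method, nor by the `k`-dimensional invertible-map test over the fields in which
`p` is not zero, nor by the polynomial calculus of degree `k` over these fields, nor by the
Positivstellensatz calculus of degree `k`. -/
theorem result :
    (∀ (R S : Type) [CommRing R] [CommRing S] [Finite R] [Finite S],
      Nonempty (ringGraph R ≃g ringGraph S) ↔ Nonempty (R ≃+* S)) ∧
    ∀ (p : ℕ), p.Prime → ∀ (k r : ℕ), 1 ≤ k → 1735 * k ≤ r →
      ∃ (R S : Type) (_ : CommRing R) (_ : CommRing S) (_ : Fintype R) (_ : Fintype S),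
        Fintype.card R = p ^ r ∧ Fintype.card S = p ^ r ∧
        CubeZeroLocal p R ∧ CubeZeroLocal p S ∧
        IsEmpty (R ≃+* S) ∧ IsEmpty (ringGraph R ≃g ringGraph S) ∧
        WLEquivalent k (ringGraph R) (ringGraph S) ∧
        IMEquiv p k (ringGraph R) (ringGraph S) ∧
        (∀ (K : Type) [Field K], (p : K) ≠ 0 → ¬ PCRefutes K (ringGraph R) (ringGraph S) k) ∧
        ¬ PosRefutes (ringGraph R) (ringGraph S) k :=
  ⟨fun _ _ _ _ _ _ => ringGraph_iso_iff, fun p hp k r hk hr => main p hp k r hk hr⟩

end Pool.Agent.Results.MP_f1a348_lc.CommutativeRings
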