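import Pool.Agent.Run7.h33.LL.TwoMain
import Pool.Agent.Run7.h33.LL.AutFix
import Pool.Agent.Run7.h33.KS.Ab4

/-!
# Dense graphs without `K_{s,t}`: isomorphism and automorphisms

Let `s ≥ 2` and let `G` be a graph with `n` vertices and minimum degree at least `δ` in which any `s`
vertices have at most `t` common neighbours, i.e. a graph without `K_{s,t+1}`. By the theorem of
Kővári, Sós and Turán `δ = O(n ^ (1 - 1/s))`. Suppose that this order of magnitude is attained:
`n ^ (s - 1) ≤ A δ ^ s`. Nothing else is assumed: the graph need not be regular or connected.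
Examples are the incidence graphs of projective planes and symmetric designs and the polarity graphs
(`s = 2`), the norm graphs and the projective norm graphs of Kollár, Rónyai, Szabó and Alon (all `s`)
and the extremal graphs with the random algebraic construction of Bukh. Let `s`, `t` and `A` be fixed.

1. After the individualization of `O(log log n)` suitable vertices the graph is `t`-CR-bounded: the
repetition of colour refinement and of the individualization of the vertices in classes with at most
`t` elements leads to the discrete partition. Isomorphism of `t`-CR-bounded graphs can be decided in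
time `n ^ polylog t` (Neuen; Grohe, Neuen, Schweitzer), so isomorphism of the graphs `G` can be
decided in time `n ^ O(log log n)`. For `s = 2` and symmetric designs this bound was proved by Babai
and Luks in 1983, for projective planes by Miller in 1978.

2. Abelian groups of automorphisms have bases of bounded size (a base is a set of vertices whose
pointwise stabilizer is trivial), groups with derived length `k` have bases of size `O(k)`, nilpotent
groups have bases of size `O(log log n)`. The automorphism group has at most `n ^ O(log log n)`
elements.

3. For `s = 2` and `t = 1` (no 4-cycles) the Weisfeiler-Leman method of dimension `O(log log n)`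
identifies `G` among all graphs.

Proof. Call a set closed if it contains the common neighbours of any `s` of its elements. A vertex
outside of a closed set has at most `s - 1` neighbours inside.

Generation (`KS/Grow.lean`, `KS/Step.lean`, `KS/Proc.lean`). Let `K₀ ⊆ K` be closed and
`m = |K \ K₀|`. If `m` is less than `c n`, then few edges are inside of `K \ K₀`, so the set `E` of
the neighbours of `K \ K₀` outside has at least `c m δ` elements. There are `s - 2` vertices `Z`
outside with at least `c m δ (δ / n) ^ (s - 2)` common neighbours `W` in `E`. Now choose `s` vertices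
`y_1, ..., y_s` at random. Every `a` outside has about `m` neighbours in `W`, which are divided into
`s` parts; the part number `i` has a neighbour in common with `y_i` with probability at least
`c m δ / n`, since small sets expand. Then `a` is a common neighbour of `s` vertices `w_i` such that
`w_i` is a common neighbour of `y_i`, `Z` and a vertex of `K`. Hence the closure of `K`, `Z` and the
`y_i` has at least `c m ^ s` elements outside of `K₀`, so `O(log log n)` steps lead to `c n` elements,
and after a bounded number of repetitions everything is generated.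

Abelian groups `P` (`AB/St1.lean`, `AB/St2.lean`, `KS/Ab1.lean`, `KS/Ab2.lean`, `KS/Ab3.lean`). If `x`
and `y` are adjacent, then so are all elements of the orbits `x ^ P_y` and `y ^ P_x`. So these orbits
are short on one side. Let `x` be a moved vertex with the smallest stabilizer. Then
`|z ^ P_x| ≤ |x ^ P_z|` for all `z`, and `|z ^ P_x|` is bounded for at least `c n` moved vertices `z`.
For most edges `{w, z}`, where `w` is one of these vertices, the stabilizers of `w` and `z` in `P_x`
coincide, since two vertices have only `O(δ ^ 2 / n)` common neighbours. By the theorem of Kővári,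
Sós and Turán some stabilizer of two vertices fixes at least `c n` moved vertices.

Derived length: if `N` is the last term of the derived series of `P`, then the stabilizer `Q` of a
base of `N` satisfies `Q ∩ N = 1`, so its derived length is smaller. The derived length of a
nilpotent group is at most `log log |P| + 2`. The Sylow subgroups of the stabilizer of a generating
set are nilpotent and only belong to primes `p ≤ t`. This gives the order of the automorphism group.
-/

set_option autoImplicit false

namespace Pool.Agent.Results.MP_f1a348_lc.DenseKstFree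

open Pool.Agent.W185.SRG

/-- 1. Graphs in which any `s` vertices have at most `t` common neighbours, with minimum degree `δ`
and `n ^ (s - 1) ≤ A δ ^ s`. 2. The size of the set in 1 for `s = 2`. 3. The Weisfeiler-Leman
dimension for `s = 2` and `t = 1`. -/
theorem result :
    (∀ s : ℕ, 2 ≤ s → ∃ c : ℕ, ∀ (t A δ : ℕ) (V : Type) [Fintype V] [Nonempty V]
      (G : SimpleGraph V), 1 ≤ t → 1 ≤ A →
      (∀ T : Finset V, T.card = s → {w | ∀ x ∈ T, G.Adj x w}.ncard ≤ t) →
      (∀ v, δ ≤ (G.neighborSet v).ncard) → Fintype.card V ^ (s - 1) ≤ A * δ ^ s →
      (∃ S : Finset V, S.card ≤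
          c * (t * A) ^ c * (Nat.log 2 (Nat.log 2 (Fintype.card V)) + 1) ∧
        Run7.h33.LL.CRBounded G t S ∧
        ∀ p, p.Prime → t < p → ∀ φ : G ≃g G, (⇑φ)^[p] = id → (∀ v ∈ S, φ v = v) →
          ∀ v, φ v = v) ∧
      (∀ H : Subgroup (G ≃g G), ∀ k, derivedSeries H k = ⊥ → ∃ S : Finset V,
        S.card ≤ k * (c * (t * A) ^ c) ∧ ∀ φ ∈ H, (∀ v ∈ S, φ v = v) → φ = 1) ∧
      (∀ H : Subgroup (G ≃g G), Group.IsNilpotent H → ∃ S : Finset V, S.card ≤
          c * (t * A) ^ c * (Nat.log 2 (Nat.log 2 (Fintype.card V)) + 1) ∧
        ∀ φ ∈ H, (∀ v ∈ S, φ v = v) → φ = 1) ∧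
      Nat.card (G ≃g G) ≤ Fintype.card V ^
        (c * (t * A) ^ c * (Nat.log 2 (Nat.log 2 (Fintype.card V)) + 1))) ∧
    (∀ (A δ t : ℕ) (V : Type) [Fintype V] (G : SimpleGraph V),
      1 ≤ A → 2 ≤ δ → 1 ≤ t → (∀ u v, u ≠ v → (G.commonNeighbors u v).ncard ≤ t) →
      (∀ v, δ ≤ (G.neighborSet v).ncard) → Fintype.card V ≤ A * δ ^ 2 →
      ∃ S : Finset V, S.card ≤ 40000 * t * A * (A * (Nat.log 2 (t * A) + 1) +
          Nat.log 2 (Nat.log 2 (Fintype.card V))) ∧
        Run7.h33.LL.CRBounded G t S ∧
        ∀ p, p.Prime → t < p → ∀ φ : G ≃g G, (⇑φ)^[p] = id → (∀ v ∈ S, φ v = v) →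
          ∀ v, φ v = v) ∧
    (∀ (A δ N : ℕ) (V W : Type) [Fintype V] [Fintype W] (G : SimpleGraph V) (H : SimpleGraph W),
      1 ≤ A → 2 ≤ δ → (∀ u v, u ≠ v → (G.commonNeighbors u v).Subsingleton) →
      (∀ v, δ ≤ (G.neighborSet v).ncard) → Fintype.card V ≤ A * δ ^ 2 →
      20000 * A * (A * (Nat.log 2 A + 1) + Nat.log 2 (Nat.log 2 (Fintype.card V))) ≤ N →
      WLEquivalent N G H → Nonempty (G ≃g H)) := by
  refine ⟨?_, ?_, ?_⟩
  · intro s hs
    exact Run7.h33.KS.main_all hs
  · intro A δ t V _ G hA hδ ht hG hd hn
    exact Run7.h33.LL.main_cr hδ hA ht hG hd hn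
  · intro A δ N V W _ _ G H hA hδ hG hd hn hN h
    exact Run7.h33.LL.main_two hδ hA (Run7.h33.AF.noC4_of hG) hd hn hN h

end Pool.Agent.Results.MP_f1a348_lc.DenseKstFree
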