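import Mathlib
import Pool.Agent.Run7.h997.GI.Path
import Pool.Agent.Run7.h997.GI.Match

/-!
# Certificates for graph isomorphism whose rejections are explained by few bits

The input `z : Var n → Bool` consists of the `n (n - 1)` adjacency bits of two graphs on `n`
labelled vertices, and `IsIso z` says that the two graphs are isomorphic. The trivial certificate
for isomorphism is a bijection, and if it is wrong then two bits of the input (the adjacency of a
pair and of its image) show this. More generally we consider certificates such that, whenever a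
certificate is rejected, some `t` bits of the input explain the rejection; equivalently each
certificate tests a formula in conjunctive normal form with clauses of at most `t` literals (with
any number of clauses), so `s` certificates are the same as a circuit of depth three with bottom
fan-in `t` and top fan-in `s`.

Theorem: at least `n! / (2 t ^ (n - 1)) ≥ (n / (3 t)) ^ n / 2` certificates are needed, for every
`t`. So the trivial certificates, for which `t = 2`, are optimal up to a factor `2 ^ O(n)` for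
bounded `t`, up to a factor `n ^ o(n)` for `t = n ^ o(1)`, and `n ^ Ω(n)` certificates are
necessary as long as `t ≤ n ^ (1 - ε)`. For `n / 4 ≤ t` at least `2 ^ ⌊n ^ 2 / (16 t)⌋`
certificates are needed. More generally, `s` sound certificates accept together at most `s t ^ m`
of the labelled copies of any given graph with `m` edges.
-/

namespace Pool.Agent.Results.MP_f1a348_lc.LocallyRefutedCertificates

open Pool.Agent.H526R2.GI Pool.Agent.Run7.h997.GI

/-- The pairs of isomorphic graphs on `n` labelled vertices are the union of `s` sets (the pairs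
accepted with the `i`-th certificate) whose rejections are explained by `t` bits. -/
def Certified (n t s : ℕ) : Prop :=
  ∃ S : Fin s → Set (Var n → Bool), (∀ i, Explained t (S i)) ∧ ∀ z, IsIso z ↔ ∃ i, z ∈ S i

theorem copies_le {n t s : ℕ} (h : Certified n t s) (y : Pr n → Bool) :
    (copies y).ncard ≤ s * t ^ edges y := by
  obtain ⟨S, hS, hc⟩ := h
  have h1 := family S hS (fun i z hz => (hc z).2 ⟨i, hz⟩) y
  have h2 : {x | ∃ i, Sum.elim y x ∈ S i} = copies y := by
    ext x
    exact (hc _).symm
  rwa [h2] at h1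

theorem trivial_cert (n : ℕ) : Certified n 2 n.factorial := by
  classical
  have hc : Fintype.card (Equiv.Perm (Fin n)) = n.factorial := by
    rw [Fintype.card_perm, Fintype.card_fin]
  let f : Fin n.factorial ≃ Equiv.Perm (Fin n) := (Fintype.equivFinOfCardEq hc).symm
  refine ⟨fun i => {z | ∀ e, z (Sum.inr (act (f i) e)) = z (Sum.inl e)}, ?_, ?_⟩
  · intro i z hz
    simp only [Set.mem_ofPred_eq, not_forall] at hz
    obtain ⟨e, he⟩ := hz
    refine ⟨{Sum.inr (act (f i) e), Sum.inl e}, Finset.card_le_two, fun z' hz' => ?_⟩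
    have h1 := hz' e
    by_contra hn
    push Not at hn
    have h2 := hn (Sum.inr (act (f i) e)) (by simp)
    have h3 := hn (Sum.inl e) (by simp)
    exact he (by rw [← h2, ← h3, h1])
  · intro z
    rw [isIso_iff]
    constructor
    · rintro ⟨π, hπ⟩
      exact ⟨f.symm π, by simpa using hπ⟩
    · rintro ⟨i, hi⟩
      exact ⟨f i, hi⟩

theorem path_bound {n t s : ℕ} (ht : 1 ≤ t) (h : Certified n t s) :
    n.factorial ≤ 2 * t ^ (n - 1) * s := by
  have h1 := copies_path n
  have h2 := copies_le h (pathOf (n := n) 1)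
  have h3 : t ^ edges (pathOf (n := n) 1) ≤ t ^ (n - 1) := Nat.pow_le_pow_right ht edges_path
  calc n.factorial ≤ 2 * (copies (pathOf (n := n) 1)).ncard := h1
    _ ≤ 2 * (s * t ^ (n - 1)) := Nat.mul_le_mul_left _ (h2.trans (Nat.mul_le_mul_left _ h3))
    _ = 2 * t ^ (n - 1) * s := by ring

theorem path_bound' {n t s : ℕ} (ht : 1 ≤ t) (h : Certified n t s) :
    ((n : ℝ) / (3 * t)) ^ n ≤ 2 * s := by
  have h1 : ((n.factorial : ℕ) : ℝ) ≤ 2 * (t : ℝ) ^ (n - 1) * s := by
    exact_mod_cast path_bound ht h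
  have ht' : (1 : ℝ) ≤ t := by exact_mod_cast ht
  have h2 : (t : ℝ) ^ (n - 1) ≤ (t : ℝ) ^ n := pow_le_pow_right₀ ht' (by omega)
  have h3 := Real.pow_div_factorial_le_exp (n : ℝ) (by positivity) n
  have h4 : Real.exp (n : ℝ) ≤ 3 ^ n := by
    have := Real.exp_one_lt_d9
    calc Real.exp (n : ℝ) = Real.exp 1 ^ n := by rw [← Real.exp_nat_mul, mul_one]
      _ ≤ 3 ^ n := pow_le_pow_left₀ (Real.exp_pos _).le (by linarith) n
  have hf : (0 : ℝ) < n.factorial := by exact_mod_cast n.factorial_pos
  have h5 : (n : ℝ) ^ n ≤ 3 ^ n * n.factorial := by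
    have := h3.trans h4
    rwa [div_le_iff₀ hf] at this
  have hs : (0 : ℝ) ≤ s := by positivity
  rw [div_pow, mul_pow, div_le_iff₀ (by positivity)]
  calc (n : ℝ) ^ n ≤ 3 ^ n * n.factorial := h5
    _ ≤ 3 ^ n * (2 * (t : ℝ) ^ n * s) := by
        apply mul_le_mul_of_nonneg_left _ (by positivity)
        refine h1.trans ?_
        apply mul_le_mul_of_nonneg_right _ hs
        linarith
    _ = 2 * s * (3 ^ n * (t : ℝ) ^ n) := by ring

theorem match_bound {n t s : ℕ} (ht : 1 ≤ t) (htn : n ≤ 4 * t) (h : Certified n t s) :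
    2 ^ (n ^ 2 / (16 * t)) ≤ s := by
  set m := n ^ 2 / (16 * t) with hm
  have hm1 : 16 * t * m ≤ n ^ 2 := Nat.mul_div_le _ _
  have hm2 : 4 * m ≤ n := by
    rcases Nat.eq_zero_or_pos n with h0 | hn
    · subst h0
      simp at hm
      omega
    · by_contra hc
      push Not at hc
      have h1 : n * n < n ^ 2 := by
        calc n * n < n * (4 * m) := Nat.mul_lt_mul_of_pos_left hc hn
          _ ≤ (4 * t) * (4 * m) := Nat.mul_le_mul_right _ htn
          _ = 16 * t * m := by ring
          _ ≤ n ^ 2 := hm1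
      rw [pow_two] at h1
      exact lt_irrefl _ h1
  have hcard : Fintype.card (Fin m × Bool) ≤ Fintype.card (Fin n) := by
    simp
    omega
  obtain ⟨f₀⟩ := Function.Embedding.nonempty_of_card_le hcard
  have h1 := copies_match f₀
  have h2 := copies_le h (matchOf f₀)
  have h3 : t ^ edges (matchOf f₀) ≤ t ^ m := Nat.pow_le_pow_right ht (edges_match f₀)
  have h4 : (n + 1 - 2 * m) ^ (2 * m) ≤ s * (2 * m * t) ^ m := by
    calc (n + 1 - 2 * m) ^ (2 * m) ≤ n.descFactorial (2 * m) :=
          Nat.pow_sub_le_descFactorial n (2 * m)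
      _ ≤ (2 * m) ^ m * (copies (matchOf f₀)).ncard := h1
      _ ≤ (2 * m) ^ m * (s * t ^ m) :=
          Nat.mul_le_mul_left _ (h2.trans (Nat.mul_le_mul_left _ h3))
      _ = s * (2 * m * t) ^ m := by rw [mul_pow (2 * m) t m]; ring
  have h5 : 2 * (2 * m * t) ≤ (n + 1 - 2 * m) ^ 2 := by
    have h6 : n ≤ 2 * (n + 1 - 2 * m) := by omega
    have h7 : n ^ 2 ≤ (2 * (n + 1 - 2 * m)) ^ 2 := Nat.pow_le_pow_left h6 2
    have h8 : (2 * (n + 1 - 2 * m)) ^ 2 = 4 * (n + 1 - 2 * m) ^ 2 := by ring
    have h9 : 16 * t * m = 4 * (2 * (2 * m * t)) := by ring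
    omega
  rcases Nat.eq_zero_or_pos m with h0 | hm0
  · rw [h0] at h4 ⊢
    simpa using h4
  have h6 : 2 ^ m * (2 * m * t) ^ m ≤ s * (2 * m * t) ^ m := by
    rw [← mul_pow]
    refine le_trans ?_ h4
    rw [pow_mul]
    exact Nat.pow_le_pow_left h5 m
  exact Nat.le_of_mul_le_mul_right h6 (by positivity)

/-- Certificates for graph isomorphism whose rejections are explained by `t` bits of the input. -/
theorem result :
    (∀ n, Certified n 2 n.factorial) ∧
    (∀ n t s, 1 ≤ t → Certified n t s →
      n.factorial ≤ 2 * t ^ (n - 1) * s ∧ ((n : ℝ) / (3 * t)) ^ n ≤ 2 * s) ∧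
    (∀ n t s, 1 ≤ t → n ≤ 4 * t → Certified n t s → 2 ^ (n ^ 2 / (16 * t)) ≤ s) ∧
    (∀ n t s, ∀ S : Fin s → Set (Var n → Bool), (∀ i, Explained t (S i)) →
      (∀ i, ∀ z ∈ S i, IsIso z) → ∀ y : Pr n → Bool,
        {x | ∃ i, Sum.elim y x ∈ S i}.ncard ≤ s * t ^ edges y) ∧
    (∀ n t, ∀ S : Set (Var n → Bool), Explained t S ↔
      ∃ Φ : Set (Finset (Var n × Bool)), (∀ C ∈ Φ, C.card ≤ t) ∧ S = cnf Φ) :=
  ⟨trivial_cert, fun _ _ _ ht h => ⟨path_bound ht h, path_bound' ht h⟩,
    fun _ _ _ ht htn h => match_bound ht htn h, fun _ _ _ S hS hs y => family S hS hs y,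
    fun _ t S => explained_iff t S⟩

end Pool.Agent.Results.MP_f1a348_lc.LocallyRefutedCertificates
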