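import Pool.Agent.Run7.h166.WL.Flip

/-!
# Graphs which are sparse up to low rank have bounded Weisfeiler-Leman dimension

Let `H` be a graph without complete bipartite subgraph `K_{h,h}` all of whose vertex coloured
induced subgraphs are identified by the `k`-dimensional Weisfeiler-Leman algorithm (for instance
planar graphs, graphs of bounded genus or tree width, or graphs without a fixed minor), and let `G`
be a graph on the same vertices such that the difference of the adjacency matrices has rank at most
`r` over some field. Then `G`, with any colouring, is identified in dimension
`k + h 4^h 3^r`. So the isomorphism problem is in P for all low rank perturbations of the graphs of a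
hereditary class without large complete bipartite subgraphs and of bounded Weisfeiler-Leman
dimension.

Proof. The difference of the matrices is constant on the products of at most `3^r` classes of
vertices (the flip classes). Individualise `2h` vertices of every class (or all of them) and all
vertices which have at least `h` neighbours in `H` in one of these samples; the latter are at most
`(h - 1) (2h choose h)` for each sample, since there is no `K_{h,h}`. The class of any other vertex is
seen, by majority, from its adjacencies in `G` to the individualised vertices, up to classes which are
flipped in the same way. So the flip is undone on the other vertices by a definition from these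
adjacencies, which both players of the pebble game can use.

The definitions of the algorithm (`wl`, `WLEquiv`, `Identified`) are those of the starting file
`Pool/Agent/W894/FE/Defs.lean`.
-/

namespace Pool.Agent.Results.MP_f1a348_lc.SparsePlusLowRank

open Pool.Agent.W894.FE Run7.h166.WL

/-- **Sparse plus low rank.** If `H` has no `K_{h,h}` and all coloured induced subgraphs of `H` are
identified by the `k`-dimensional Weisfeiler-Leman algorithm, and if the adjacency matrices of `G`
and `H` differ by a matrix of rank at most `r` over a field, then `G` with any colouring is
identified by the algorithm of dimension `k + h 4^h 3^r`. -/
theorem result (k h r : ℕ) (hk : 1 ≤ k) {V : Type} [Fintype V] (H G : SimpleGraph V)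
    (hH : NoBiclique h H)
    (hI : ∀ (U : Set V) [Fintype U] (χ : U → ℕ), Identified k (H.induce U) χ)
    (K : Type) [Field K] (hr : (diff K G H).rank ≤ r) (χ : V → ℕ) :
    Identified (k + h * 4 ^ h * 3 ^ r) G χ :=
  identified_lowRank k h r hk H G hH hI K hr χ

end Pool.Agent.Results.MP_f1a348_lc.SparsePlusLowRank
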